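import Pool.Agent.W133.DQ.StF
import Pool.Agent.W133.DQ.StB

set_option autoImplicit false

open scoped ContDiff
open Set Filter Topology
open Pool.Agent.W133.DQ

namespace Pool.Agent.W961.DQ

/-- cut-off: `1` for `y ≥ -1`, `0` for `y ≤ -2`. -/
noncomputable def cc (y : ℝ) : ℝ := Real.smoothTransition (y + 2)

theorem cc_smooth : ContDiff ℝ ∞ cc :=
  Real.smoothTransition.contDiff.comp (contDiff_id.add contDiff_const)

theorem cc_one {y : ℝ} (h : -1 ≤ y) : cc y = 1 :=
  Real.smoothTransition.one_of_one_le (by linarith)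

theorem cc_zero {y : ℝ} (h : y ≤ -2) : cc y = 0 :=
  Real.smoothTransition.zero_of_nonpos (by linarith)

theorem cc_nonneg (y : ℝ) : 0 ≤ cc y := Real.smoothTransition.nonneg _
theorem cc_le_one (y : ℝ) : cc y ≤ 1 := Real.smoothTransition.le_one _

theorem CD_int {X : Equiv.Perm ℝ} (h : CD X) (n : ℤ) (x : ℝ) : X (x + n) = X x + n := by
  induction n using Int.induction_on with
  | zero => simp
  | succ i ih =>
    have := h.2 (x + (i : ℤ))
    push_cast at this ih ⊢
    rw [← add_assoc, this, ih]; ring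
  | pred i ih =>
    have := h.2 (x + ((-(i : ℤ) - 1 : ℤ) : ℝ))
    push_cast at this ih ⊢
    rw [show x + (-(i : ℝ) - 1) + 1 = x + -(i : ℝ) by ring, ih] at this
    linarith

theorem CD_bdd {X : Equiv.Perm ℝ} (h : CD X) (x : ℝ) : |X x - x| ≤ |X 0| + 1 := by
  have h1 := CD_int h ⌊x⌋ (Int.fract x)
  rw [Int.fract_add_floor] at h1
  have h2 : X 0 ≤ X (Int.fract x) := h.1.2.2.monotone (Int.fract_nonneg x)
  have h3 : X (Int.fract x) ≤ X 1 := h.1.2.2.monotone (Int.fract_lt_one x).le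
  have h4 : X 1 = X 0 + 1 := by simpa using h.2 0
  have h5 := Int.fract_add_floor x
  have h6 := Int.fract_nonneg x
  have h7 := (Int.fract_lt_one x).le
  have h8 := neg_abs_le (X 0)
  have h9 := le_abs_self (X 0)
  rw [abs_le]
  constructor <;> linarith

theorem CD_deriv_pos {X : Equiv.Perm ℝ} (h : CD X) (x : ℝ) : 0 < deriv (fun x => X x) x := by
  have hd : DifferentiableAt ℝ (fun x => X x) x := (h.1.1.differentiable (by simp)) x
  have hd2 : DifferentiableAt ℝ (fun x => X⁻¹ x) (X x) := (h.1.2.1.differentiable (by simp)) _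
  have h1 : HasDerivAt (fun x => X x) (deriv (fun x => X x) x) x := hd.hasDerivAt
  have h2 : HasDerivAt (fun x => X⁻¹ x) (deriv (fun x => X⁻¹ x) (X x)) (X x) := hd2.hasDerivAt
  have h3 := h2.comp x h1
  have h4 : ((fun x => X⁻¹ x) ∘ fun x => X x) = id := by
    funext y; simp
  rw [h4] at h3
  have h5 := h3.unique (hasDerivAt_id x)
  have h6 : 0 ≤ deriv (fun x => X x) x := h.1.2.2.monotone.deriv_nonneg
  rcases h6.lt_or_eq with h7 | h7
  · exact h7
  · rw [← h7] at h5; simp at h5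

theorem extc (hL : S_LPINV) : S_EXTC := by
  intro X hX
  set w : ℝ × ℝ → ℝ := fun q => cc q.2 * (X q.1 - q.1) with hw
  have hws : ContDiff ℝ ∞ w := by
    have h1 : ContDiff ℝ ∞ (fun q : ℝ × ℝ => cc q.2) := cc_smooth.comp contDiff_snd
    have h2 : ContDiff ℝ ∞ (fun q : ℝ × ℝ => X q.1) := hX.1.1.comp contDiff_fst
    exact h1.mul (h2.sub contDiff_fst)
  have hwd : ∀ (x : ℝ) (e : ℝ), -1 < deriv (fun s => w (s, e)) x := by
    intro x e
    have h1 : HasDerivAt (fun x => X x) (deriv (fun x => X x) x) x :=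
      ((hX.1.1.differentiable (by simp)) x).hasDerivAt
    have h2 : HasDerivAt (fun s => w (s, e)) (cc e * (deriv (fun x => X x) x - 1)) x :=
      (h1.sub (hasDerivAt_id x)).const_mul (cc e)
    rw [h2.deriv]
    have h3 := CD_deriv_pos hX x
    have h4 := cc_nonneg e
    have h5 := cc_le_one e
    nlinarith [mul_nonneg h4 h3.le]
  have hwb : ∀ e : ℝ, ∃ C : ℝ, ∀ x : ℝ, |w (x, e)| ≤ C := by
    intro e
    refine ⟨|X 0| + 1, fun x => ?_⟩
    have h1 := CD_bdd hX x
    rw [hw]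
    simp only
    rw [abs_mul, abs_of_nonneg (cc_nonneg e)]
    have h2 := cc_le_one e
    have h3 := abs_nonneg (X x - x)
    have h4 := cc_nonneg e
    nlinarith
  obtain ⟨M, hM, hMi⟩ := hL ℝ w hws hwd hwb
  have hMs : ContDiff ℝ ∞ (fun q => M q) := by
    have : (fun q => M q) = fun q : ℝ × ℝ => (q.1 + w q, q.2) := funext hM
    rw [this]
    exact (contDiff_fst.add hws).prodMk contDiff_snd
  have hM2 : ∀ q, (M q).2 = q.2 := fun q => by rw [hM]
  have hMi2 : ∀ q, (M⁻¹ q).2 = q.2 := fun q => by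
    have := hM2 (M⁻¹ q)
    rw [show M (M⁻¹ q) = q from M.apply_symm_apply q] at this
    exact this.symm
  have hMT : ∀ q : ℝ × ℝ, M (q.1 + 1, q.2) = ((M q).1 + 1, (M q).2) := by
    intro q
    rw [hM, hM, hw]
    simp only [hX.2]
    ext
    · simp only; ring
    · rfl
  -- the restriction
  let N : Equiv.Perm HH :=
    { toFun := fun p => ⟨M p.1, by rw [hM2]; exact p.2⟩
      invFun := fun p => ⟨M⁻¹ p.1, by rw [hMi2]; exact p.2⟩
      left_inv := fun p => by ext <;> simp
      right_inv := fun p => by ext <;> simp }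
  have hN : ∀ p : HH, (N p : P2) = M p.1 := fun _ => rfl
  have hNi : ∀ p : HH, (N⁻¹ p : P2) = M⁻¹ p.1 := fun _ => rfl
  refine ⟨N, ⟨⟨fun q => M q, hMs, hN⟩, ⟨fun q => M⁻¹ q, hMi, hNi⟩, ?_, ?_, -2, ?_⟩, 1, one_pos, ?_⟩
  · intro p
    apply Subtype.ext
    rw [hN, hT_coe, hT_coe, hN]
    exact hMT p.1
  · intro p
    rw [hN, hM2]
  · intro p hp
    apply Subtype.ext
    rw [hN, hM, hw]
    simp only [cc_zero hp]
    ext <;> simp
  · intro p hp
    rw [hN, hM, hw]
    simp only [cc_one hp.le]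
    ext
    · simp only; ring
    · rfl

end Pool.Agent.W961.DQ
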