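import Pool.Agent.W133.DQ.StF
import Pool.Agent.W133.DQ.StC

set_option autoImplicit false

open scoped ContDiff
open Set Filter Topology
open Pool.Agent.W133.DQ

namespace Pool.Agent.W961.DQ

/-- `iot` as a map of the plane. -/
noncomputable def ioF (p : P2) : P2 := (Real.sqrt (1 + p.1 ^ 2 + p.2 ^ 2))⁻¹ • p

/-- the inverse of `iot`. -/
noncomputable def riF (q : P2) : P2 := (Real.sqrt (1 - q.1 ^ 2 - q.2 ^ 2))⁻¹ • q

theorem iot_coe (p : P2) : (iot p : P2) = ioF p := rfl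

theorem ioF_riF {q : P2} (h : q.1 ^ 2 + q.2 ^ 2 < 1) : ioF (riF q) = q := by
  have hN : 0 < 1 - q.1 ^ 2 - q.2 ^ 2 := by linarith
  have hs : 0 < Real.sqrt (1 - q.1 ^ 2 - q.2 ^ 2) := Real.sqrt_pos.2 hN
  have hs2 := Real.sq_sqrt hN.le
  set s := Real.sqrt (1 - q.1 ^ 2 - q.2 ^ 2) with hs'
  have e : (1 + (riF q).1 ^ 2 + (riF q).2 ^ 2) = (s⁻¹) ^ 2 := by
    have e1 : (riF q).1 = s⁻¹ * q.1 := rfl
    have e2 : (riF q).2 = s⁻¹ * q.2 := rfl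
    rw [e1, e2]
    field_simp
    linarith
  have e3 : Real.sqrt (1 + (riF q).1 ^ 2 + (riF q).2 ^ 2) = s⁻¹ := by
    rw [e, Real.sqrt_sq (by positivity)]
  unfold ioF
  rw [e3, inv_inv]
  unfold riF
  rw [← hs', smul_smul, mul_inv_cancel₀ hs.ne', one_smul]

theorem ioF_contDiff : ContDiff ℝ ∞ ioF := by
  rw [contDiff_iff_contDiffAt]
  intro p
  have h1 : ContDiffAt ℝ ∞ (fun p : P2 => 1 + p.1 ^ 2 + p.2 ^ 2) p :=
    ((contDiff_const.add (contDiff_fst.pow 2)).add (contDiff_snd.pow 2)).contDiffAt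
  have hp : (0:ℝ) < 1 + p.1 ^ 2 + p.2 ^ 2 := by positivity
  have h2 : ContDiffAt ℝ ∞ (fun p : P2 => Real.sqrt (1 + p.1 ^ 2 + p.2 ^ 2)) p :=
    h1.sqrt hp.ne'
  have h3 : ContDiffAt ℝ ∞ (fun p : P2 => (Real.sqrt (1 + p.1 ^ 2 + p.2 ^ 2))⁻¹) p :=
    h2.inv (Real.sqrt_pos.2 hp).ne'
  exact h3.smul contDiffAt_id

theorem riF_contDiffAt {q : P2} (h : q.1 ^ 2 + q.2 ^ 2 < 1) : ContDiffAt ℝ ∞ riF q := by
  have h1 : ContDiffAt ℝ ∞ (fun p : P2 => 1 - p.1 ^ 2 - p.2 ^ 2) q :=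
    ((contDiff_const.sub (contDiff_fst.pow 2)).sub (contDiff_snd.pow 2)).contDiffAt
  have hp : (0:ℝ) < 1 - q.1 ^ 2 - q.2 ^ 2 := by linarith
  have h2 : ContDiffAt ℝ ∞ (fun p : P2 => Real.sqrt (1 - p.1 ^ 2 - p.2 ^ 2)) q :=
    h1.sqrt hp.ne'
  have h3 : ContDiffAt ℝ ∞ (fun p : P2 => (Real.sqrt (1 - p.1 ^ 2 - p.2 ^ 2))⁻¹) q :=
    h2.inv (Real.sqrt_pos.2 hp).ne'
  exact h3.smul contDiffAt_id

theorem smul_deriv (s : P2 → ℝ) (hs : DifferentiableAt ℝ s 0) (h1 : s 0 = 1) :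
    HasFDerivAt (fun q : P2 => s q • q) (ContinuousLinearMap.id ℝ P2) 0 := by
  have h := hs.hasFDerivAt.smul (hasFDerivAt_id (𝕜 := ℝ) (0 : P2))
  have e : s 0 • ContinuousLinearMap.id ℝ P2 + (fderiv ℝ s 0).smulRight (id (0 : P2)) =
      ContinuousLinearMap.id ℝ P2 := by
    rw [h1, one_smul, id, ContinuousLinearMap.smulRight_zero, add_zero]
  rw [e] at h
  exact h

theorem ioF_deriv : HasFDerivAt ioF (ContinuousLinearMap.id ℝ P2) 0 := by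
  apply smul_deriv
  · have h1 : ContDiffAt ℝ ∞ (fun p : P2 => 1 + p.1 ^ 2 + p.2 ^ 2) 0 :=
      ((contDiff_const.add (contDiff_fst.pow 2)).add (contDiff_snd.pow 2)).contDiffAt
    have hp : (0:ℝ) < 1 + (0:P2).1 ^ 2 + (0:P2).2 ^ 2 := by simp
    exact ((h1.sqrt hp.ne').inv (Real.sqrt_pos.2 hp).ne').differentiableAt (by simp)
  · simp

theorem riF_deriv : HasFDerivAt riF (ContinuousLinearMap.id ℝ P2) 0 := by
  apply smul_deriv
  · have h1 : ContDiffAt ℝ ∞ (fun p : P2 => 1 - p.1 ^ 2 - p.2 ^ 2) 0 :=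
      ((contDiff_const.sub (contDiff_fst.pow 2)).sub (contDiff_snd.pow 2)).contDiffAt
    have hp : (0:ℝ) < 1 - (0:P2).1 ^ 2 - (0:P2).2 ^ 2 := by simp
    exact ((h1.sqrt hp.ne').inv (Real.sqrt_pos.2 hp).ne').differentiableAt (by simp)
  · simp

theorem riF_norm {q : P2} (h : q.1 ^ 2 + q.2 ^ 2 ≤ 1 / 2) {r : ℝ} (hr : 0 < r)
    (h2 : q.1 ^ 2 + q.2 ^ 2 < r ^ 2 / 2) : ‖riF q‖ < r := by
  have hN : 1 / 2 ≤ 1 - q.1 ^ 2 - q.2 ^ 2 := by linarith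
  have hs : 0 < Real.sqrt (1 - q.1 ^ 2 - q.2 ^ 2) := Real.sqrt_pos.2 (by linarith)
  have hs2 := Real.sq_sqrt (show 0 ≤ 1 - q.1 ^ 2 - q.2 ^ 2 by linarith)
  set s := Real.sqrt (1 - q.1 ^ 2 - q.2 ^ 2) with hs'
  have key : ∀ x : ℝ, x ^ 2 ≤ q.1 ^ 2 + q.2 ^ 2 → ‖s⁻¹ * x‖ < r := by
    intro x hx
    rw [Real.norm_eq_abs]
    apply abs_lt_of_sq_lt_sq _ hr.le
    rw [mul_pow, inv_pow, hs2, inv_mul_lt_iff₀ (by linarith)]
    nlinarith
  have e1 : (riF q).1 = s⁻¹ * q.1 := rfl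
  have e2 : (riF q).2 = s⁻¹ * q.2 := rfl
  rw [Prod.norm_def, e1, e2, max_lt_iff]
  exact ⟨key _ (by nlinarith [sq_nonneg q.2]), key _ (by nlinarith [sq_nonneg q.1])⟩

theorem fact (hJ : S_JJ) (hL : S_LOC0) : S_FACT := by
  intro g hg
  have hgGG : g ∈ GG := hg
  obtain ⟨⟨G, hG, hG', hG2⟩, -, hg0⟩ := hg
  obtain ⟨J, hJ1, hJ2, hJ3, hJ4, hJ5⟩ := hJ
  have hd0 : ((dO : DD) : P2) = 0 := rfl
  have hG0 : G 0 = 0 := by
    have := hG' dO
    rw [hg0, hd0] at this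
    exact this.symm
  have hio0 : ioF 0 = 0 := by unfold ioF; simp
  have hri0 : riF 0 = 0 := by unfold riF; simp
  -- choice of `η`
  have hcont : Continuous (fun p : P2 => (G (ioF p)).1 ^ 2 + (G (ioF p)).2 ^ 2) := by
    have h1 : Continuous (fun p => G (ioF p)) := hG.continuous.comp ioF_contDiff.continuous
    exact (h1.fst.pow 2).add (h1.snd.pow 2)
  have hnhds : ∀ᶠ p in 𝓝 (0 : P2), (G (ioF p)).1 ^ 2 + (G (ioF p)).2 ^ 2 < 1 := by
    apply hcont.continuousAt.eventually_lt continuousAt_const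
    simp [hio0, hG0]
  obtain ⟨η, hη, hηb⟩ := Metric.eventually_nhds_iff_ball.1 hnhds
  set φ : P2 → P2 := fun p => riF (G (ioF p)) with hφ
  have hφs : ContDiffOn ℝ ∞ φ (Metric.ball 0 η) := by
    intro p hp
    have h1 := riF_contDiffAt (hηb p hp)
    have h2 : ContDiffAt ℝ ∞ (fun p => G (ioF p)) p := (hG.comp ioF_contDiff).contDiffAt
    exact (ContDiffAt.comp p h1 h2).contDiffWithinAt
  have hφ0 : φ 0 = 0 := by rw [hφ]; simp only [hio0, hG0, hri0]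
  have hφd : 0 < (fderiv ℝ φ 0).det := by
    have h1 : HasFDerivAt G (fderiv ℝ G 0) (ioF 0) := by
      rw [hio0]; exact (hG.differentiable (by simp) 0).hasFDerivAt
    have h2 : HasFDerivAt (fun p => G (ioF p)) ((fderiv ℝ G 0).comp (ContinuousLinearMap.id ℝ P2)) 0 :=
      HasFDerivAt.comp (0 : P2) h1 ioF_deriv
    have h3 : HasFDerivAt riF (ContinuousLinearMap.id ℝ P2) ((fun p => G (ioF p)) 0) := by
      simp only [hio0, hG0]; exact riF_deriv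
    have h4 := HasFDerivAt.comp (0 : P2) h3 h2
    have h5 : fderiv ℝ φ 0 = fderiv ℝ G 0 := by
      have h6 : fderiv ℝ φ 0 = _ := h4.fderiv
      rw [h6, ContinuousLinearMap.comp_id, ContinuousLinearMap.id_comp]
    rw [h5]
    have := hG2 dO
    rwa [hd0] at this
  obtain ⟨M, hM, ε, hε, hMφ⟩ := hL φ η hη hφs hφ0 hφd
  set a := J M with ha
  have haG : a ∈ G0 := hJ1 M hM
  set r := min ε η with hr
  have hr0 : 0 < r := lt_min hε hη
  have key : ∀ p : P2, ‖p‖ < r → a (iot p) = g (iot p) := by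
    intro p hp
    rw [ha, hJ5 M hM p]
    apply Subtype.ext
    rw [iot_coe, hMφ p (lt_of_lt_of_le hp (min_le_left _ _)), hG', iot_coe, hφ]
    exact ioF_riF (hηb p (by simpa using lt_of_lt_of_le hp (min_le_right _ _)))
  refine ⟨a, haG, a⁻¹ * g, ⟨GG.mul_mem (GG.inv_mem haG.1) hgGG, min (1/2) (r ^ 2 / 2),
    lt_min (by norm_num) (by positivity), fun p hp => ?_⟩, by group⟩
  have hp1 : (p : P2).1 ^ 2 + (p : P2).2 ^ 2 < 1 / 2 := lt_of_lt_of_le hp (min_le_left _ _)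
  have hp2 : (p : P2).1 ^ 2 + (p : P2).2 ^ 2 < r ^ 2 / 2 := lt_of_lt_of_le hp (min_le_right _ _)
  have h1 : ‖riF p‖ < r := riF_norm hp1.le hr0 hp2
  have h2 : iot (riF p) = p := by
    apply Subtype.ext
    rw [iot_coe]
    exact ioF_riF (by linarith)
  have h3 := key _ h1
  rw [h2] at h3
  rw [Equiv.Perm.mul_apply, ← h3]
  simp

end Pool.Agent.W961.DQ
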